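import Pool.Agent.X24.SE.Fam
import Pool.Agent.Y837.SV.Fin1

set_option autoImplicit false

/-! # All primitive polynomials `β x ^ a + g(y)` of bounded height at one point (helper24) -/

namespace Pool.Agent.X24.SE

open Finset
open Pool.Agent.H256R2.SC (ff)

open scoped Classical

/-- `β` and the coefficients of positive degree of `g` have no common prime factor -/
def Prim (β : ℤ) (g : Polynomial ℤ) : Prop :=
  ∀ q : ℕ, q.Prime → ¬ ((q : ℤ) ∣ β ∧ ∀ m : ℕ, 1 ≤ m → (q : ℤ) ∣ g.coeff m)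

/-- the data -/
def W (k : ℕ) : Set (ℕ × ℤ × Polynomial ℤ) :=
  {d | (1 ≤ d.1 ∧ d.1 ≤ k) ∧ (0 < d.2.1 ∧ d.2.1 ≤ k) ∧ (1 ≤ d.2.2.natDegree ∧ d.2.2.natDegree ≤ k) ∧
    Nat.Coprime d.1 d.2.2.natDegree ∧ (∀ m, |d.2.2.coeff m| ≤ k) ∧ d.2.2.coeff 0 = 0 ∧ Prim d.2.1 d.2.2}

theorem poly_finite (k : ℕ) :
    {g : Polynomial ℤ | g.natDegree ≤ k ∧ ∀ m, |g.coeff m| ≤ k}.Finite := by
  refine (Set.finite_range (fun v : Fin (k + 1) → Finset.Icc (-(k : ℤ)) k =>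
    ∑ m : Fin (k + 1), Polynomial.C ((v m : ℤ)) * Polynomial.X ^ (m : ℕ))).subset ?_
  rintro g ⟨hg1, hg2⟩
  refine ⟨fun m => ⟨g.coeff m, ?_⟩, ?_⟩
  · rw [Finset.mem_Icc]
    exact abs_le.1 (hg2 m)
  · show ∑ m : Fin (k + 1), Polynomial.C (g.coeff (m : ℕ)) * Polynomial.X ^ (m : ℕ) = g
    rw [Fin.sum_univ_eq_sum_range (fun m => Polynomial.C (g.coeff m) * Polynomial.X ^ m) (k + 1)]
    exact (g.as_sum_range_C_mul_X_pow' (by omega)).symm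

theorem W_finite (k : ℕ) : (W k).Finite := by
  have h1 : (Set.Icc 0 k ×ˢ (Set.Icc (0 : ℤ) k ×ˢ
      {g : Polynomial ℤ | g.natDegree ≤ k ∧ ∀ m, |g.coeff m| ≤ k})).Finite :=
    (Set.finite_Icc _ _).prod ((Set.finite_Icc _ _).prod (poly_finite k))
  refine h1.subset ?_
  rintro ⟨a, β, g⟩ ⟨h2, h3, h4, h5, h6, h7, h8⟩
  exact ⟨⟨Nat.zero_le _, h2.2⟩, ⟨h3.1.le, h3.2⟩, h4.2, h6⟩

theorem one_of_prim {β : ℤ} {g : Polynomial ℤ} (h : Prim β g) {u : ℤ} (hu : 0 < u) (h1 : u ∣ β)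
    (h2 : ∀ m, 1 ≤ m → u ∣ g.coeff m) : u = 1 := by
  by_contra hne
  have h3 : u.natAbs ≠ 1 := by omega
  obtain ⟨q, hq, hqu⟩ := Nat.exists_prime_and_dvd h3
  have h4 : (q : ℤ) ∣ u := Int.natCast_dvd.2 hqu
  exact h q hq ⟨h4.trans h1, fun m hm => h4.trans (h2 m hm)⟩

theorem eq_of_prop {β γ : ℤ} {g h : Polynomial ℤ} (hβ : 0 < β) (hγ : 0 < γ) (hg : Prim β g) (hh : Prim γ h)
    (h0 : g.coeff 0 = h.coeff 0) (heq : ∀ m, 1 ≤ m → γ * g.coeff m = β * h.coeff m) : β = γ ∧ g = h := by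
  have hgp : 0 < Int.gcd β γ := Int.gcd_pos_of_ne_zero_left _ hβ.ne'
  obtain ⟨u, w, huw, hu, hw⟩ := Int.exists_gcd_one hgp
  obtain ⟨D, hD⟩ : ∃ D : ℤ, D = (Int.gcd β γ : ℤ) := ⟨_, rfl⟩
  have hD0 : 0 < D := by rw [hD]; exact_mod_cast hgp
  rw [← hD] at hu hw
  have hu0 : 0 < u := by
    rw [hu] at hβ
    exact pos_of_mul_pos_left hβ hD0.le
  have hw0 : 0 < w := by
    rw [hw] at hγ
    exact pos_of_mul_pos_left hγ hD0.le
  have h1 : ∀ m, 1 ≤ m → w * g.coeff m = u * h.coeff m := by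
    intro m hm
    have h2 := heq m hm
    rw [hu, hw] at h2
    apply mul_left_cancel₀ hD0.ne'
    linear_combination h2
  have hu1 : u = 1 := by
    refine one_of_prim hg hu0 ⟨D, hu⟩ fun m hm => ?_
    have h2 : u ∣ w * g.coeff m := by rw [h1 m hm]; exact Dvd.intro _ rfl
    exact Int.dvd_of_dvd_mul_right_of_gcd_one h2 huw
  have hw1 : w = 1 := by
    refine one_of_prim hh hw0 ⟨D, hw⟩ fun m hm => ?_
    have h2 : w ∣ u * h.coeff m := by rw [← h1 m hm]; exact Dvd.intro _ rfl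
    exact Int.dvd_of_dvd_mul_right_of_gcd_one h2 (by rw [Int.gcd_comm]; exact huw)
  refine ⟨by rw [hu, hw, hu1, hw1], ?_⟩
  ext m
  rcases Nat.eq_zero_or_pos m with rfl | hm
  · exact h0
  · have h2 := h1 m hm
    rw [hu1, hw1, one_mul, one_mul] at h2
    exact h2

/-- positive leading factor -/
theorem uni_pos (k : ℕ) : ∃ c : ℝ, 0 < c ∧ ∃ Z₀ : ℝ, ∀ Z : ℕ, Z₀ ≤ Z → ∀ M N : ℤ, ∃ x y : ℤ,
    (M < x ∧ x ≤ M + Z) ∧ (N < y ∧ y ≤ N + Z) ∧ ∀ (a : ℕ) (β : ℤ) (g : Polynomial ℤ), 1 ≤ a → a ≤ k →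
      0 < β → β ≤ k → 1 ≤ g.natDegree → g.natDegree ≤ k → Nat.Coprime a g.natDegree →
      (∀ m, |g.coeff m| ≤ k) → Prim β g → ∀ n : ℤ,
        |(n : ℝ) - ((β * x ^ a + g.eval y : ℤ) : ℝ)| ≤ c * ff Z →
        ∃ p : ℕ, p.Prime ∧ (p : ℝ) ≤ (Z : ℝ) ^ (1 / 10 : ℝ) ∧ (p : ℤ) ∣ n := by
  have : Fintype (W k) := (W_finite k).fintype
  obtain ⟨c, hc, Z₀, h⟩ := fam (ι := W k) (fun d => d.1.1) (fun d => d.1.2.1) (fun d => d.1.2.2)
    (fun d => d.2.1.1) (fun d => d.2.2.1.1.ne') (fun d => d.2.2.2.1.1) (fun d => d.2.2.2.2.1)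
    (by
      intro i j hij haij
      by_contra hcon
      push Not at hcon
      apply hij
      have h1 := eq_of_prop i.2.2.1.1 j.2.2.1.1 i.2.2.2.2.2.2.2 j.2.2.2.2.2.2.2
        (i.2.2.2.2.2.2.1.trans j.2.2.2.2.2.2.1.symm) hcon
      apply Subtype.ext
      exact Prod.ext haij (Prod.ext h1.1 h1.2))
  obtain ⟨Z₁, hZ₁⟩ := Pool.Agent.Y837.SV.ff_large (2 * k / c)
  refine ⟨c / 2, by positivity, max Z₀ Z₁, fun Z hZ M N => ?_⟩
  obtain ⟨x, y, hx, hy, hxy⟩ := h Z ((le_max_left _ _).trans hZ) M N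
  refine ⟨x, y, hx, hy, ?_⟩
  intro a β g ha1 hak hβ0 hβk hg1 hgk hag hgc hprim n hn
  obtain ⟨G, hG⟩ : ∃ G : Polynomial ℤ, G = g - Polynomial.C (g.coeff 0) := ⟨_, rfl⟩
  have hGd : G.natDegree = g.natDegree := by rw [hG, Polynomial.natDegree_sub_C]
  have hG0 : G.coeff 0 = 0 := by rw [hG, Polynomial.coeff_sub, Polynomial.coeff_C_zero, sub_self]
  have hGm : ∀ m, 1 ≤ m → G.coeff m = g.coeff m := by
    intro m hm
    rw [hG, Polynomial.coeff_sub, Polynomial.coeff_C_of_ne_zero (by omega : m ≠ 0), sub_zero]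
  have hW : ((a, β, G) : ℕ × ℤ × Polynomial ℤ) ∈ W k := by
    refine ⟨⟨ha1, hak⟩, ⟨hβ0, hβk⟩, ?_, ?_, ?_, hG0, ?_⟩
    · show 1 ≤ G.natDegree ∧ G.natDegree ≤ k
      rw [hGd]; exact ⟨hg1, hgk⟩
    · show Nat.Coprime a G.natDegree
      rw [hGd]; exact hag
    · intro m
      show |G.coeff m| ≤ k
      rcases Nat.eq_zero_or_pos m with rfl | hm
      · rw [hG0, abs_zero]; exact Int.natCast_nonneg k
      · rw [hGm m hm]; exact hgc m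
    · rintro q hq ⟨h1, h2⟩
      refine hprim q hq ⟨h1, fun m hm => ?_⟩
      rw [← hGm m hm]
      exact h2 m hm
  apply hxy ⟨(a, β, G), hW⟩ n
  show |(n : ℝ) - ((β * x ^ a + G.eval y : ℤ) : ℝ)| ≤ c * ff Z
  have h1 : (n : ℝ) - ((β * x ^ a + G.eval y : ℤ) : ℝ) =
      ((n : ℝ) - ((β * x ^ a + g.eval y : ℤ) : ℝ)) + ((g.coeff 0 : ℤ) : ℝ) := by
    rw [hG, Polynomial.eval_sub, Polynomial.eval_C]
    push_cast
    ring
  have h2 : |((g.coeff 0 : ℤ) : ℝ)| ≤ k := by exact_mod_cast hgc 0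
  have h3 : (k : ℝ) ≤ c / 2 * ff Z := by
    have h4 := hZ₁ Z ((le_max_right _ _).trans hZ)
    rw [div_le_iff₀ hc] at h4
    linarith
  rw [h1]
  refine (abs_add_le _ _).trans ?_
  linarith

/-- **All primitive polynomials `β x ^ a + g(y)` of bounded height, `gcd(a, deg g) = 1`** -/
theorem uni (k : ℕ) : ∃ c : ℝ, 0 < c ∧ ∃ Z₀ : ℝ, ∀ Z : ℕ, Z₀ ≤ Z → ∀ M N : ℤ, ∃ x y : ℤ,
    (M < x ∧ x ≤ M + Z) ∧ (N < y ∧ y ≤ N + Z) ∧ ∀ (a : ℕ) (β : ℤ) (g : Polynomial ℤ), 1 ≤ a → a ≤ k →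
      β ≠ 0 → |β| ≤ k → 1 ≤ g.natDegree → g.natDegree ≤ k → Nat.Coprime a g.natDegree →
      (∀ m, |g.coeff m| ≤ k) → Prim β g → ∀ n : ℤ,
        |(n : ℝ) - ((β * x ^ a + g.eval y : ℤ) : ℝ)| ≤ c * ff Z →
        ∃ p : ℕ, p.Prime ∧ (p : ℝ) ≤ (Z : ℝ) ^ (1 / 10 : ℝ) ∧ (p : ℤ) ∣ n := by
  obtain ⟨c, hc, Z₀, h⟩ := uni_pos k
  refine ⟨c, hc, Z₀, fun Z hZ M N => ?_⟩
  obtain ⟨x, y, hx, hy, hxy⟩ := h Z hZ M N
  refine ⟨x, y, hx, hy, ?_⟩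
  intro a β g ha1 hak hβ0 hβk hg1 hgk hag hgc hprim n hn
  rcases lt_or_gt_of_ne hβ0 with hneg | hpos
  · obtain ⟨p, hp1, hp2, hp3⟩ := hxy a (-β) (-g) ha1 hak (by omega) (by rw [abs_of_neg hneg] at hβk; exact hβk)
      (by rw [Polynomial.natDegree_neg]; exact hg1) (by rw [Polynomial.natDegree_neg]; exact hgk)
      (by rw [Polynomial.natDegree_neg]; exact hag)
      (fun m => by rw [Polynomial.coeff_neg, abs_neg]; exact hgc m)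
      (by
        rintro q hq ⟨h1, h2⟩
        refine hprim q hq ⟨(dvd_neg).1 h1, fun m hm => ?_⟩
        have h3 := h2 m hm
        rw [Polynomial.coeff_neg, dvd_neg] at h3
        exact h3) (-n) (by
          refine le_trans (le_of_eq ?_) hn
          rw [← abs_neg]
          congr 1
          rw [Polynomial.eval_neg]
          push_cast
          ring)
    exact ⟨p, hp1, hp2, (dvd_neg).1 hp3⟩
  · exact hxy a β g ha1 hak hpos ((abs_of_pos hpos) ▸ hβk) hg1 hgk hag hgc hprim n hn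

end Pool.Agent.X24.SE
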