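import Pool.Agent.Y837.SW.Asm

set_option autoImplicit false

/-! # The number of points of `β x ^ a + g(y) = r` modulo `p` when `gcd(a, deg g) = 1` (helper24) -/

namespace Pool.Agent.X24.SE

open Finset

open scoped Classical

section

variable {p : ℕ} [Fact p.Prime]

/-- the number of the `a`-th roots as a sum over the characters with `χ ^ a = 1` -/
theorem roots (a : ℕ) (ha : 0 < a) (c : ZMod p) :
    ((univ.filter (fun x : ZMod p => x ^ a = c)).card : ℂ) = (if c = 0 then 1 else 0) +
      ∑ χ ∈ univ.filter (fun χ : DirichletCharacter ℂ p => χ ^ a = 1), χ⁻¹ c := by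
  have hpp := (Fact.out : p.Prime)
  by_cases hc : c = 0
  · subst hc
    have h1 : (univ.filter (fun x : ZMod p => x ^ a = 0)) = {0} := by
      ext x
      rw [mem_filter, mem_singleton]
      constructor
      · rintro ⟨-, h⟩
        exact eq_zero_of_pow_eq_zero h
      · rintro rfl
        exact ⟨mem_univ _, zero_pow ha.ne'⟩
    rw [h1, card_singleton, if_pos rfl]
    have h2 : ∑ χ ∈ univ.filter (fun χ : DirichletCharacter ℂ p => χ ^ a = 1), χ⁻¹ (0 : ZMod p) = 0 := by
      refine Finset.sum_eq_zero fun χ _ => ?_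
      exact MulChar.map_nonunit _ not_isUnit_zero
    rw [h2]
    norm_num
  · rw [if_neg hc, zero_add]
    have hp1 : ((p : ℂ) - 1) ≠ 0 := by
      have h1 : (1 : ℝ) < p := by exact_mod_cast hpp.one_lt
      intro h2
      have h3 : (p : ℂ) = 1 := by linear_combination h2
      have h4 : (p : ℝ) = 1 := by exact_mod_cast h3
      linarith
    apply mul_left_cancel₀ hp1
    have h1 : ∑ x : ZMod p, ∑ χ : DirichletCharacter ℂ p, χ c⁻¹ * χ (x ^ a) =
        ((p : ℂ) - 1) * ((univ.filter (fun x : ZMod p => x ^ a = c)).card : ℂ) := by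
      have h3 : ∀ x : ZMod p, ∑ χ : DirichletCharacter ℂ p, χ c⁻¹ * χ (x ^ a) =
          if x ^ a = c then ((p : ℂ) - 1) else 0 := by
        intro x
        rw [DirichletCharacter.sum_char_inv_mul_char_eq ℂ (isUnit_iff_ne_zero.2 hc)]
        have h4 : ((p.totient : ℕ) : ℂ) = (p : ℂ) - 1 := by
          rw [Nat.totient_prime hpp, Nat.cast_sub hpp.one_lt.le, Nat.cast_one]
        rw [h4]
        by_cases h5 : x ^ a = c
        · rw [if_pos h5, if_pos h5.symm]
        · rw [if_neg h5, if_neg (fun h => h5 h.symm)]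
      simp_rw [h3]
      rw [← Finset.sum_filter, Finset.sum_const, nsmul_eq_mul]
      ring
    rw [← h1, Finset.sum_comm, Finset.mul_sum, Finset.sum_filter]
    refine Finset.sum_congr rfl fun χ _ => ?_
    have h5 : ∀ x : ZMod p, χ (x ^ a) = (χ ^ a) x := by
      intro x
      rw [map_pow, MulChar.pow_apply' χ ha.ne']
    simp_rw [h5]
    rw [← Finset.mul_sum]
    split_ifs with h6
    · rw [h6, MulChar.sum_one_eq_card_units, ZMod.card_units_eq_totient, Nat.totient_prime hpp,
        Nat.cast_sub hpp.one_lt.le, Nat.cast_one, MulChar.inv_apply']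
      ring
    · rw [MulChar.sum_eq_zero_of_ne_one h6, mul_zero]

/-- points of a plane, coordinate by coordinate -/
theorem card_plane (P : ZMod p → ZMod p → Prop) :
    ((univ.filter (fun x : Fin 2 → ZMod p => P (x 0) (x 1))).card : ℂ) =
      ∑ y : ZMod p, ((univ.filter (fun x : ZMod p => P x y)).card : ℂ) := by
  have h1 : (univ.filter (fun x : Fin 2 → ZMod p => P (x 0) (x 1))).card =
      (univ.filter (fun z : ZMod p × ZMod p => P z.1 z.2)).card := by
    refine Finset.card_bij (fun x _ => (x 0, x 1)) ?_ ?_ ?_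
    · intro x hx
      rw [mem_filter] at hx ⊢
      exact ⟨mem_univ _, hx.2⟩
    · intro x _ y _ h
      rw [Prod.mk.injEq] at h
      funext i
      fin_cases i
      · exact h.1
      · exact h.2
    · rintro ⟨u, v⟩ hb
      rw [mem_filter] at hb
      refine ⟨![u, v], ?_, by simp⟩
      rw [mem_filter]
      exact ⟨mem_univ _, by simpa using hb.2⟩
  rw [h1]
  have h2 : (univ.filter (fun z : ZMod p × ZMod p => P z.1 z.2)).card =
      ∑ y : ZMod p, (univ.filter (fun x : ZMod p => P x y)).card := by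
    rw [Finset.card_filter, Fintype.sum_prod_type_right]
    refine Finset.sum_congr rfl fun y _ => ?_
    rw [Finset.card_filter]
  rw [h2]
  push_cast
  rfl

end

/-- polynomials of degree prime to `a` are no constants times powers -/
theorem np {E : Type} [Field E] (t : ℕ) (f : Polynomial E) (hf : f ≠ 0) (h : Nat.Coprime t f.natDegree) :
    Pool.Agent.Y837.SW.NP t f := by
  intro d hd hd1 c g hg
  have hc : c ≠ 0 := by
    rintro rfl
    apply hf
    rw [hg, map_zero, zero_mul]
  have h1 : f.natDegree = d * g.natDegree := by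
    rw [hg, Polynomial.natDegree_C_mul hc, Polynomial.natDegree_pow]
  have h2 : d ∣ f.natDegree := ⟨_, h1⟩
  have h3 : d ∣ 1 := by
    rw [← Nat.coprime_iff_gcd_eq_one.1 h]
    exact Nat.dvd_gcd hd h2
  have := Nat.le_of_dvd one_pos h3
  omega

/-- **The number of the points of `β x ^ a + g(y) = r`** -/
theorem count (a : ℕ) (ha : 0 < a) (β : ℤ) (hβ : β ≠ 0) (g : Polynomial ℤ) (hg : 0 < g.natDegree)
    (hag : Nat.Coprime a g.natDegree) :
    ∃ K : ℝ, 0 ≤ K ∧ ∀ (p : ℕ) [Fact p.Prime], β.natAbs + g.leadingCoeff.natAbs < p → ∀ r : ZMod p,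
      |((univ.filter (fun x : Fin 2 → ZMod p =>
        (β : ZMod p) * x 0 ^ a + (g.map (Int.castRingHom (ZMod p))).eval (x 1) = r)).card : ℝ) - p| ≤
        K * Real.sqrt p := by
  have hw : ∀ t : ℕ, ∃ K : ℝ, 0 ≤ K ∧ (2 ≤ t → ∀ (E : Type) [Field E] [Fintype E],
      t ∣ Fintype.card E - 1 → ∀ ψ : MulChar E ℂ, ψ ≠ 1 → ψ ^ t = 1 → ∀ f : Polynomial E,
      f.natDegree ≤ g.natDegree → f ≠ 0 → Pool.Agent.Y837.SW.NP t f →
      ‖∑ x : E, ψ (f.eval x)‖ ≤ K * Real.sqrt (Fintype.card E)) := by
    intro t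
    by_cases ht : 2 ≤ t
    · obtain ⟨K, hK, h⟩ := Pool.Agent.Y837.SW.wele t g.natDegree ht
      exact ⟨K, hK, fun _ => h⟩
    · exact ⟨0, le_rfl, fun h => absurd h ht⟩
  choose K hK hKK using hw
  obtain ⟨S, hS⟩ : ∃ S : ℝ, S = ∑ t ∈ range (a + 1), K t := ⟨_, rfl⟩
  have hS0 : 0 ≤ S := by rw [hS]; exact Finset.sum_nonneg fun t _ => hK t
  refine ⟨a * S, by positivity, ?_⟩
  intro p _ hp r
  have hpp := (Fact.out : p.Prime)
  have hp0 : (0 : ℝ) < p := by exact_mod_cast hpp.pos
  obtain ⟨b, hb⟩ : ∃ b : ZMod p, b = (β : ZMod p) := ⟨_, rfl⟩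
  have hb0 : b ≠ 0 := by
    rw [hb]
    intro h
    rw [ZMod.intCast_zmod_eq_zero_iff_dvd] at h
    have h3 := Int.natAbs_dvd_natAbs.2 h
    rw [Int.natAbs_natCast] at h3
    have h4 := Nat.le_of_dvd (Int.natAbs_pos.2 hβ) h3
    omega
  have hl0 : ((Int.castRingHom (ZMod p)) g.leadingCoeff) ≠ 0 := by
    intro h
    rw [eq_intCast, ZMod.intCast_zmod_eq_zero_iff_dvd] at h
    have h3 := Int.natAbs_dvd_natAbs.2 h
    rw [Int.natAbs_natCast] at h3
    have hlc : g.leadingCoeff ≠ 0 := by
      rw [Polynomial.leadingCoeff_ne_zero]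
      rintro rfl
      simp at hg
    have h4 := Nat.le_of_dvd (Int.natAbs_pos.2 hlc) h3
    omega
  obtain ⟨G, hG⟩ : ∃ G : Polynomial (ZMod p), G = g.map (Int.castRingHom (ZMod p)) := ⟨_, rfl⟩
  have hGd : G.natDegree = g.natDegree := by
    rw [hG]
    exact Polynomial.natDegree_map_of_leadingCoeff_ne_zero _ hl0
  obtain ⟨f, hf⟩ : ∃ f : Polynomial (ZMod p), f = Polynomial.C (-b⁻¹) * (G - Polynomial.C r) := ⟨_, rfl⟩
  have hbi : (-b⁻¹) ≠ 0 := neg_ne_zero.2 (inv_ne_zero hb0)
  have hfd : f.natDegree = g.natDegree := by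
    rw [hf, Polynomial.natDegree_C_mul hbi, Polynomial.natDegree_sub_C, hGd]
  have hf0 : f ≠ 0 := by
    rintro h
    rw [h, Polynomial.natDegree_zero] at hfd
    omega
  have hfe : ∀ y, f.eval y = b⁻¹ * (r - G.eval y) := by
    intro y
    rw [hf, Polynomial.eval_mul, Polynomial.eval_C, Polynomial.eval_sub, Polynomial.eval_C]
    ring
  have hiff : ∀ x y : ZMod p, b * x ^ a + G.eval y = r ↔ x ^ a = f.eval y := by
    intro x y
    rw [hfe]
    constructor
    · intro h
      rw [← h]
      field_simp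
      ring
    · intro h
      rw [h]
      field_simp
      ring
  rw [← hb, ← hG]
  have hcount : ((univ.filter (fun x : Fin 2 → ZMod p => b * x 0 ^ a + G.eval (x 1) = r)).card : ℂ) - p =
      ∑ χ ∈ (univ.filter (fun χ : DirichletCharacter ℂ p => χ ^ a = 1)).erase 1,
        ∑ y : ZMod p, χ⁻¹ (f.eval y) := by
    have h0 : ((univ.filter (fun x : Fin 2 → ZMod p => b * x 0 ^ a + G.eval (x 1) = r)).card : ℂ) =
        ∑ y : ZMod p, ((univ.filter (fun x : ZMod p => x ^ a = f.eval y)).card : ℂ) := by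
      refine Eq.trans ?_ ((card_plane (fun x y => b * x ^ a + G.eval y = r)).trans ?_)
      · congr!
      · refine Finset.sum_congr rfl fun y _ => ?_
        refine congrArg (fun s : Finset (ZMod p) => (s.card : ℂ)) (Finset.ext fun x => ?_)
        simp only [mem_filter, mem_univ, true_and]
        exact hiff x y
    have h0' : ∀ y : ZMod p, ((univ.filter (fun x : ZMod p => x ^ a = f.eval y)).card : ℂ) =
        (if f.eval y = 0 then 1 else 0) +
        ∑ χ ∈ univ.filter (fun χ : DirichletCharacter ℂ p => χ ^ a = 1), χ⁻¹ (f.eval y) := by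
      intro y
      refine Eq.trans ?_ (roots a ha (f.eval y))
      congr!
    rw [h0]
    simp_rw [h0']
    rw [Finset.sum_add_distrib, Finset.sum_comm]
    have h1 : (1 : DirichletCharacter ℂ p) ∈ univ.filter (fun χ : DirichletCharacter ℂ p => χ ^ a = 1) := by
      rw [mem_filter]
      exact ⟨mem_univ _, one_pow a⟩
    rw [← Finset.add_sum_erase _ _ h1]
    have h2 : ∀ y : ZMod p, (1 : DirichletCharacter ℂ p)⁻¹ (f.eval y) =
        1 - (if f.eval y = 0 then (1 : ℂ) else 0) := by
      intro y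
      rw [inv_one]
      by_cases h4 : f.eval y = 0
      · rw [if_pos h4, h4, sub_self]
        exact MulChar.map_nonunit _ not_isUnit_zero
      · rw [if_neg h4, sub_zero]
        exact MulChar.one_apply (isUnit_iff_ne_zero.2 h4)
    simp_rw [h2]
    rw [Finset.sum_sub_distrib, Finset.sum_const, card_univ, ZMod.card, nsmul_eq_mul, mul_one]
    ring
  have hbound : ‖((univ.filter (fun x : Fin 2 → ZMod p => b * x 0 ^ a + G.eval (x 1) = r)).card : ℂ) - p‖ ≤
      a * S * Real.sqrt p := by
    rw [hcount]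
    refine (norm_sum_le _ _).trans ?_
    have h3 : ∀ χ ∈ (univ.filter (fun χ : DirichletCharacter ℂ p => χ ^ a = 1)).erase 1,
        ‖∑ y : ZMod p, χ⁻¹ (f.eval y)‖ ≤ S * Real.sqrt p := by
      intro χ hχ
      have hχ1 := Finset.ne_of_mem_erase hχ
      have hχ2 := (mem_filter.1 (Finset.mem_of_mem_erase hχ)).2
      obtain ⟨t, ht⟩ : ∃ t, t = Nat.gcd a (p - 1) := ⟨_, rfl⟩
      have h5 : χ ^ (p - 1) = 1 := by
        have := χ.pow_card_eq_one
        rwa [ZMod.card_units] at this
      have h6 : χ ^ t = 1 := by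
        rw [ht]
        exact pow_gcd_eq_one.2 ⟨hχ2, h5⟩
      have ht0 : 0 < t := by rw [ht]; exact Nat.gcd_pos_of_pos_left _ ha
      have ht2 : 2 ≤ t := by
        by_contra h7
        have h8 : t = 1 := by omega
        rw [h8, pow_one] at h6
        exact hχ1 h6
      have hta : t ∣ a := by rw [ht]; exact Nat.gcd_dvd_left _ _
      have hNP : Pool.Agent.Y837.SW.NP t f := by
        apply np t f hf0
        rw [hfd]
        exact Nat.Coprime.coprime_dvd_left hta hag
      have h7 := hKK t ht2 (ZMod p) (by rw [ZMod.card, ht]; exact Nat.gcd_dvd_right _ _) χ⁻¹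
        (fun h => hχ1 (inv_eq_one.1 h)) (by rw [inv_pow, h6, inv_one]) f hfd.le hf0 hNP
      rw [ZMod.card] at h7
      refine h7.trans ?_
      have h8 : K t ≤ S := by
        rw [hS]
        refine Finset.single_le_sum (f := K) (fun t _ => hK t) ?_
        rw [mem_range]
        have := Nat.le_of_dvd ha hta
        omega
      exact mul_le_mul_of_nonneg_right h8 (Real.sqrt_nonneg _)
    refine (Finset.sum_le_sum h3).trans ?_
    rw [Finset.sum_const, nsmul_eq_mul]
    have h9 : ((univ.filter (fun χ : DirichletCharacter ℂ p => χ ^ a = 1)).erase 1).card ≤ a :=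
      (Finset.card_le_card (Finset.erase_subset _ _)).trans (Pool.Agent.Y837.SW.char_card (p := p) a ha)
    have h10 : ((((univ.filter (fun χ : DirichletCharacter ℂ p => χ ^ a = 1)).erase 1).card : ℕ) : ℝ) ≤ a := by
      exact_mod_cast h9
    rw [mul_assoc]
    exact mul_le_mul_of_nonneg_right h10 (by positivity)
  have hcast : ((univ.filter (fun x : Fin 2 → ZMod p => b * x 0 ^ a + G.eval (x 1) = r)).card : ℂ) - p =
      ((((univ.filter (fun x : Fin 2 → ZMod p => b * x 0 ^ a + G.eval (x 1) = r)).card : ℝ) - p : ℝ) : ℂ) := by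
    push_cast
    rfl
  rw [hcast, Complex.norm_real, Real.norm_eq_abs] at hbound
  exact hbound

end Pool.Agent.X24.SE
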