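import Pool.Agent.X24.SE.Cnt

set_option autoImplicit false

/-! # Record neighbourhoods around the values `β x ^ a + g(y)` (helper24) -/

namespace Pool.Agent.X24.SE

open Finset
open Pool.Agent.H256R2.SC (ff)

open scoped Classical

section

variable {p : ℕ} [Fact p.Prime]

/-- points above the zeros of a polynomial -/
theorem card_above (a : ℕ) (ha : 0 < a) (f Q : Polynomial (ZMod p)) (hQ : Q ≠ 0) (D : ℕ)
    (hD : Q.natDegree ≤ D) (s : Finset (Fin 2 → ZMod p))
    (hs : ∀ x ∈ s, x 0 ^ a = f.eval (x 1) ∧ Q.eval (x 1) = 0) : s.card ≤ a * D := by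
  have h1 : s.card ≤ a * (s.image (fun x => x 1)).card := by
    apply Finset.card_le_mul_card_image
    intro y hy
    refine le_trans ?_ (Pool.Agent.Y837.SV.card_pow_eq a ha (f.eval y))
    apply Finset.card_le_card_of_injOn (fun x => x 0)
    · intro x hx
      rw [Finset.mem_coe, mem_filter] at hx
      rw [Finset.mem_coe, mem_filter]
      refine ⟨mem_univ _, ?_⟩
      have h2 := (hs x hx.1).1
      rw [hx.2] at h2
      exact h2
    · intro x hx z hz h
      rw [Finset.mem_coe, mem_filter] at hx hz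
      funext i
      fin_cases i
      · exact h
      · exact hx.2.trans hz.2.symm
  have h2 : (s.image (fun x => x 1)).card ≤ D := by
    have h3 : s.image (fun x => x 1) ⊆ Q.roots.toFinset := by
      intro y hy
      rw [mem_image] at hy
      obtain ⟨x, hx, rfl⟩ := hy
      rw [Multiset.mem_toFinset, Polynomial.mem_roots hQ]
      exact (hs x hx).2
    exact (Finset.card_le_card h3).trans ((Multiset.toFinset_card_le _).trans ((Polynomial.card_roots' Q).trans hD))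
  exact h1.trans (Nat.mul_le_mul_left a h2)

end

theorem unit_of (n : ℤ) (hn : n ≠ 0) (p : ℕ) (hp : n.natAbs < p) : (n : ZMod p) ≠ 0 := by
  intro h
  rw [ZMod.intCast_zmod_eq_zero_iff_dvd] at h
  have h3 := Int.natAbs_dvd_natAbs.2 h
  rw [Int.natAbs_natCast] at h3
  have h4 := Nat.le_of_dvd (Int.natAbs_pos.2 hn) h3
  omega

/-- **Two different curves meet in boundedly many points** -/
theorem pair (a b : ℕ) (ha : 0 < a) (hb : 0 < b) (β γ : ℤ) (hβ : β ≠ 0) (hγ : γ ≠ 0) (g h : Polynomial ℤ)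
    (hg : 0 < g.natDegree) (hh : 0 < h.natDegree) (hag : Nat.Coprime a g.natDegree)
    (hbh : Nat.Coprime b h.natDegree)
    (hne : a = b → ∃ m, 1 ≤ m ∧ γ * g.coeff m ≠ β * h.coeff m) :
    ∃ B₀ : ℕ, ∀ (p : ℕ) [Fact p.Prime], B₀ < p → ∀ r s : ZMod p,
      (univ.filter (fun x : Fin 2 → ZMod p =>
        (β : ZMod p) * x 0 ^ a + (g.map (Int.castRingHom (ZMod p))).eval (x 1) = r ∧
        (γ : ZMod p) * x 0 ^ b + (h.map (Int.castRingHom (ZMod p))).eval (x 1) = s)).card ≤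
        a * (b * g.natDegree + a * h.natDegree) := by
  have hlg : g.leadingCoeff ≠ 0 := by
    rw [Polynomial.leadingCoeff_ne_zero]
    rintro rfl
    simp at hg
  have hlh : h.leadingCoeff ≠ 0 := by
    rw [Polynomial.leadingCoeff_ne_zero]
    rintro rfl
    simp at hh
  obtain ⟨e, he⟩ : ∃ e : ℕ, a = b → ∃ m, 1 ≤ m ∧ γ * g.coeff m ≠ β * h.coeff m ∧
      (γ * g.coeff m - β * h.coeff m).natAbs ≤ e := by
    by_cases hab : a = b
    · obtain ⟨m, hm1, hm2⟩ := hne hab
      exact ⟨(γ * g.coeff m - β * h.coeff m).natAbs, fun _ => ⟨m, hm1, hm2, le_rfl⟩⟩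
    · exact ⟨0, fun h => absurd h hab⟩
  refine ⟨β.natAbs + γ.natAbs + g.leadingCoeff.natAbs + h.leadingCoeff.natAbs + e, ?_⟩
  intro p _ hp r s
  have hpp := (Fact.out : p.Prime)
  have hep : e < p := by clear he hne; omega
  have hb0 : (β : ZMod p) ≠ 0 := unit_of β hβ p (by omega)
  have hc0 : (γ : ZMod p) ≠ 0 := unit_of γ hγ p (by omega)
  have hl1 : ((Int.castRingHom (ZMod p)) g.leadingCoeff) ≠ 0 := by
    rw [eq_intCast]
    exact unit_of _ hlg p (by omega)
  have hl2 : ((Int.castRingHom (ZMod p)) h.leadingCoeff) ≠ 0 := by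
    rw [eq_intCast]
    exact unit_of _ hlh p (by omega)
  obtain ⟨G, hG⟩ : ∃ G : Polynomial (ZMod p), G = g.map (Int.castRingHom (ZMod p)) := ⟨_, rfl⟩
  obtain ⟨H, hH⟩ : ∃ H : Polynomial (ZMod p), H = h.map (Int.castRingHom (ZMod p)) := ⟨_, rfl⟩
  have hGd : G.natDegree = g.natDegree := by
    rw [hG]
    exact Polynomial.natDegree_map_of_leadingCoeff_ne_zero _ hl1
  have hHd : H.natDegree = h.natDegree := by
    rw [hH]
    exact Polynomial.natDegree_map_of_leadingCoeff_ne_zero _ hl2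
  obtain ⟨u, hu⟩ : ∃ u : ZMod p, u = (β : ZMod p) := ⟨_, rfl⟩
  obtain ⟨v, hv⟩ : ∃ v : ZMod p, v = (γ : ZMod p) := ⟨_, rfl⟩
  rw [← hG, ← hH, ← hu, ← hv]
  rw [← hu] at hb0
  rw [← hv] at hc0
  obtain ⟨G', hG'⟩ : ∃ G' : Polynomial (ZMod p), G' = G - Polynomial.C r := ⟨_, rfl⟩
  obtain ⟨H', hH'⟩ : ∃ H' : Polynomial (ZMod p), H' = H - Polynomial.C s := ⟨_, rfl⟩
  have hG'd : G'.natDegree = g.natDegree := by rw [hG', Polynomial.natDegree_sub_C, hGd]
  have hH'd : H'.natDegree = h.natDegree := by rw [hH', Polynomial.natDegree_sub_C, hHd]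
  have hx : ∀ x y : ZMod p, u * x ^ a + G.eval y = r → x ^ a = (Polynomial.C (-u⁻¹) * G').eval y := by
    intro x y hxy
    rw [hG', Polynomial.eval_mul, Polynomial.eval_C, Polynomial.eval_sub, Polynomial.eval_C, ← hxy]
    field_simp
    ring
  by_cases hab : a = b
  · obtain ⟨m, hm1, hm2, hm3⟩ := he hab
    subst hab
    obtain ⟨Q, hQ⟩ : ∃ Q : Polynomial (ZMod p), Q = Polynomial.C v * G' - Polynomial.C u * H' := ⟨_, rfl⟩
    have hQ0 : Q ≠ 0 := by
      intro h0
      have h1 : Q.coeff m = 0 := by rw [h0, Polynomial.coeff_zero]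
      rw [hQ, Polynomial.coeff_sub, Polynomial.coeff_C_mul, Polynomial.coeff_C_mul, hG', hH',
        Polynomial.coeff_sub, Polynomial.coeff_sub, Polynomial.coeff_C_of_ne_zero (by omega : m ≠ 0),
        Polynomial.coeff_C_of_ne_zero (by omega : m ≠ 0), sub_zero, sub_zero, hG, hH, Polynomial.coeff_map,
        Polynomial.coeff_map, eq_intCast, eq_intCast, hu, hv] at h1
      have h2 : ((γ * g.coeff m - β * h.coeff m : ℤ) : ZMod p) = 0 := by
        push_cast
        exact h1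
      exact unit_of _ (sub_ne_zero.2 hm2) p (lt_of_le_of_lt hm3 hep) h2
    refine card_above a ha (Polynomial.C (-u⁻¹) * G') Q hQ0 _ ?_ _ ?_
    · rw [hQ]
      refine (Polynomial.natDegree_sub_le _ _).trans ?_
      have h1 : (Polynomial.C v * G').natDegree ≤ a * g.natDegree + a * h.natDegree := by
        rw [Polynomial.natDegree_C_mul hc0, hG'd]
        nlinarith
      have h2 : (Polynomial.C u * H').natDegree ≤ a * g.natDegree + a * h.natDegree := by
        rw [Polynomial.natDegree_C_mul hb0, hH'd]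
        nlinarith
      exact max_le h1 h2
    · intro x hx'
      rw [mem_filter] at hx'
      obtain ⟨-, h1, h2⟩ := hx'
      refine ⟨hx _ _ h1, ?_⟩
      rw [hQ, hG', hH', Polynomial.eval_sub, Polynomial.eval_mul, Polynomial.eval_mul, Polynomial.eval_C,
        Polynomial.eval_C, Polynomial.eval_sub, Polynomial.eval_sub, Polynomial.eval_C, Polynomial.eval_C,
        ← h1, ← h2]
      ring
  · obtain ⟨Q, hQ⟩ : ∃ Q : Polynomial (ZMod p), Q = Polynomial.C (v ^ a) * (-G') ^ b -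
      Polynomial.C (u ^ b) * (-H') ^ a := ⟨_, rfl⟩
    have hd1 : (Polynomial.C (v ^ a) * (-G') ^ b).natDegree = b * g.natDegree := by
      rw [Polynomial.natDegree_C_mul (pow_ne_zero _ hc0), Polynomial.natDegree_pow, Polynomial.natDegree_neg, hG'd]
    have hd2 : (Polynomial.C (u ^ b) * (-H') ^ a).natDegree = a * h.natDegree := by
      rw [Polynomial.natDegree_C_mul (pow_ne_zero _ hb0), Polynomial.natDegree_pow, Polynomial.natDegree_neg, hH'd]
    have hdne : b * g.natDegree ≠ a * h.natDegree := by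
      intro h0
      apply hab
      apply Nat.dvd_antisymm
      · have h1 : a ∣ b * g.natDegree := by rw [h0]; exact Dvd.intro _ rfl
        exact hag.dvd_of_dvd_mul_right h1
      · have h1 : b ∣ a * h.natDegree := by rw [← h0]; exact Dvd.intro _ rfl
        exact hbh.dvd_of_dvd_mul_right h1
    have hQ0 : Q ≠ 0 := by
      intro h0
      rw [hQ, sub_eq_zero] at h0
      apply hdne
      rw [← hd1, ← hd2, h0]
    refine card_above a ha (Polynomial.C (-u⁻¹) * G') Q hQ0 _ ?_ _ ?_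
    · rw [hQ]
      refine (Polynomial.natDegree_sub_le _ _).trans ?_
      rw [hd1, hd2]
      exact max_le (by omega) (by omega)
    · intro x hx'
      rw [mem_filter] at hx'
      obtain ⟨-, h1, h2⟩ := hx'
      refine ⟨hx _ _ h1, ?_⟩
      have e1 : (-G').eval (x 1) = u * x 0 ^ a := by
        rw [hG', Polynomial.eval_neg, Polynomial.eval_sub, Polynomial.eval_C, ← h1]
        ring
      have e2 : (-H').eval (x 1) = v * x 0 ^ b := by
        rw [hH', Polynomial.eval_neg, Polynomial.eval_sub, Polynomial.eval_C, ← h2]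
        ring
      rw [hQ, Polynomial.eval_sub, Polynomial.eval_mul, Polynomial.eval_mul, Polynomial.eval_C,
        Polynomial.eval_C, Polynomial.eval_pow, Polynomial.eval_pow, e1, e2, mul_pow, mul_pow, ← pow_mul, ← pow_mul,
        Nat.mul_comm b a]
      ring

/-- the polynomial `β x ^ a + g(y)` -/
noncomputable def FF (a : ℕ) (β : ℤ) (g : Polynomial ℤ) : MvPolynomial (Fin 2) ℤ :=
  MvPolynomial.C β * MvPolynomial.X 0 ^ a + Polynomial.aeval (MvPolynomial.X 1) g

theorem FF_eval (a : ℕ) (β : ℤ) (g : Polynomial ℤ) (x : Fin 2 → ℤ) :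
    MvPolynomial.eval x (FF a β g) = β * x 0 ^ a + g.eval (x 1) := by
  rw [FF, map_add, map_mul, map_pow, MvPolynomial.eval_C, MvPolynomial.eval_X]
  congr 1
  have h1 := Polynomial.hom_eval₂ g (algebraMap ℤ (MvPolynomial (Fin 2) ℤ)) (MvPolynomial.eval x)
    (MvPolynomial.X 1)
  rw [Polynomial.aeval_def, h1, MvPolynomial.eval_X]
  have h2 : (MvPolynomial.eval x).comp (algebraMap ℤ (MvPolynomial (Fin 2) ℤ)) = RingHom.id ℤ :=
    Subsingleton.elim _ _
  rw [h2]
  rfl

theorem FF_aeval (a : ℕ) (β : ℤ) (g : Polynomial ℤ) (p : ℕ) (x : Fin 2 → ZMod p) :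
    MvPolynomial.aeval x (FF a β g) = (β : ZMod p) * x 0 ^ a + (g.map (Int.castRingHom (ZMod p))).eval (x 1) := by
  rw [FF, map_add, map_mul, map_pow, MvPolynomial.aeval_C, MvPolynomial.aeval_X]
  congr 1
  have h1 := Polynomial.hom_eval₂ g (algebraMap ℤ (MvPolynomial (Fin 2) ℤ))
    (MvPolynomial.aeval x : MvPolynomial (Fin 2) ℤ →ₐ[ℤ] ZMod p).toRingHom (MvPolynomial.X 1)
  have h3 : (MvPolynomial.aeval x) (Polynomial.aeval (MvPolynomial.X 1) g) =
      (MvPolynomial.aeval x : MvPolynomial (Fin 2) ℤ →ₐ[ℤ] ZMod p).toRingHom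
        (Polynomial.eval₂ (algebraMap ℤ (MvPolynomial (Fin 2) ℤ)) (MvPolynomial.X 1) g) := rfl
  rw [h3, h1, Polynomial.eval_map]
  have h4 : (MvPolynomial.aeval x : MvPolynomial (Fin 2) ℤ →ₐ[ℤ] ZMod p).toRingHom.comp
      (algebraMap ℤ (MvPolynomial (Fin 2) ℤ)) = Int.castRingHom (ZMod p) := Subsingleton.elim _ _
  rw [h4]
  congr 1
  exact MvPolynomial.aeval_X _ _

/-- **Record neighbourhoods around the values of finitely many polynomials `β x ^ a + g(y)`** -/
theorem fam {ι : Type} [Fintype ι] (a : ι → ℕ) (β : ι → ℤ) (g : ι → Polynomial ℤ) (ha : ∀ j, 0 < a j)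
    (hβ : ∀ j, β j ≠ 0) (hg : ∀ j, 0 < (g j).natDegree) (hag : ∀ j, Nat.Coprime (a j) (g j).natDegree)
    (hne : ∀ i j, i ≠ j → a i = a j → ∃ m, 1 ≤ m ∧ β j * (g i).coeff m ≠ β i * (g j).coeff m) :
    ∃ c : ℝ, 0 < c ∧ ∃ Z₀ : ℝ, ∀ Z : ℕ, Z₀ ≤ Z → ∀ M N : ℤ, ∃ x y : ℤ,
      (M < x ∧ x ≤ M + Z) ∧ (N < y ∧ y ≤ N + Z) ∧ ∀ j, ∀ n : ℤ,
        |(n : ℝ) - ((β j * x ^ (a j) + (g j).eval y : ℤ) : ℝ)| ≤ c * ff Z →
        ∃ p : ℕ, p.Prime ∧ (p : ℝ) ≤ (Z : ℝ) ^ (1 / 10 : ℝ) ∧ (p : ℤ) ∣ n := by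
  have key := Pool.Agent.Y837.SW.crit4 2 (fun j => FF (a j) (β j) (g j)) ?_ (fun _ => ∅) ?_ ?_ ?_
  · obtain ⟨c, hc, Z₀, h⟩ := key
    refine ⟨c, hc, Z₀, fun Z hZ M N => ?_⟩
    obtain ⟨x, hx, hx2⟩ := h Z hZ ![M, N]
    refine ⟨x 0, x 1, by simpa using hx 0, by simpa using hx 1, fun j n hn => ?_⟩
    apply hx2 j n
    rw [FF_eval]
    exact hn
  · intro j c hc
    have h0 := FF_eval (a j) (β j) (g j) ![0, 0]
    have h1 := FF_eval (a j) (β j) (g j) ![1, 0]
    rw [hc, MvPolynomial.eval_C] at h0 h1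
    have h2 : (![0, 0] : Fin 2 → ℤ) 0 = 0 := rfl
    have h3 : (![1, 0] : Fin 2 → ℤ) 0 = 1 := rfl
    have h4 : (![0, 0] : Fin 2 → ℤ) 1 = 0 := rfl
    have h5 : (![1, 0] : Fin 2 → ℤ) 1 = 0 := rfl
    rw [h2, h4, zero_pow (ha j).ne'] at h0
    rw [h3, h5, one_pow] at h1
    apply hβ j
    linarith
  · intro j r hr
    exact absurd hr (Finset.notMem_empty r)
  · intro j
    obtain ⟨K, hK, h⟩ := count (a j) (ha j) (β j) (hβ j) (g j) (hg j) (hag j)
    refine ⟨K, hK, (β j).natAbs + (g j).leadingCoeff.natAbs, fun p _ hp r _ => ?_⟩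
    have hpp := (Fact.out : p.Prime)
    have hp0 : (0 : ℝ) < p := by exact_mod_cast hpp.pos
    have h1 := h p hp r
    simp_rw [FF_aeval]
    have hs0 : 0 ≤ Real.sqrt p := Real.sqrt_nonneg _
    have hsq : Real.sqrt p * Real.sqrt p = p := Real.mul_self_sqrt hp0.le
    obtain ⟨N, hN⟩ : ∃ N : ℕ, N = (univ.filter (fun x : Fin 2 → ZMod p =>
        (β j : ZMod p) * x 0 ^ (a j) + ((g j).map (Int.castRingHom (ZMod p))).eval (x 1) = r)).card := ⟨_, rfl⟩
    have h2 : |(N : ℝ) - p| ≤ K * Real.sqrt p := by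
      rw [hN]
      refine le_trans (le_of_eq ?_) h1
      congr!
    have h3 : |(p : ℝ) * N - (p : ℝ) ^ 2| * Real.sqrt p ≤ K * (p : ℝ) ^ 2 := by
      have e1 : (p : ℝ) * N - (p : ℝ) ^ 2 = p * (N - p) := by ring
      rw [e1, abs_mul, abs_of_pos hp0]
      calc (p : ℝ) * |(N : ℝ) - p| * Real.sqrt p ≤ p * (K * Real.sqrt p) * Real.sqrt p := by gcongr
        _ = K * (p : ℝ) * (Real.sqrt p * Real.sqrt p) := by ring
        _ = K * (p : ℝ) ^ 2 := by rw [hsq]; ring
    rw [hN] at h3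
    refine le_trans (le_of_eq ?_) h3
    congr!
  · intro i j hij
    obtain ⟨B₀, h⟩ := pair (a i) (a j) (ha i) (ha j) (β i) (β j) (hβ i) (hβ j) (g i) (g j) (hg i) (hg j)
      (hag i) (hag j) (hne i j hij)
    refine ⟨((a i * (a j * (g i).natDegree + a i * (g j).natDegree) : ℕ) : ℝ), by positivity, B₀,
      fun p _ hp r s _ _ => ?_⟩
    have hpp := (Fact.out : p.Prime)
    have h1 := h p hp r s
    simp_rw [FF_aeval]
    have h2 : ((univ.filter (fun x : Fin 2 → ZMod p =>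
        (β i : ZMod p) * x 0 ^ (a i) + ((g i).map (Int.castRingHom (ZMod p))).eval (x 1) = r ∧
        (β j : ZMod p) * x 0 ^ (a j) + ((g j).map (Int.castRingHom (ZMod p))).eval (x 1) = s)).card : ℝ) ≤
        ((a i * (a j * (g i).natDegree + a i * (g j).natDegree) : ℕ) : ℝ) := by
      exact_mod_cast h1
    rw [mul_comm]
    refine mul_le_mul_of_nonneg_right ?_ (by positivity)
    refine le_trans (le_of_eq ?_) h2
    congr!

end Pool.Agent.X24.SE
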